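import Pool.Agent.CSCB.Final

/-!
The cosecant conjecture for Schubert problems on `G(k,n)`, `n - k = 2κ`, in which all parts of all
partitions are `0` or `2κ`, except that parts `κ` are allowed in at most four of the partitions.
-/

namespace Pool.Agent.Results.MP_0b2914_ag.FourFreePartitions

open Module Pool.CSC

/-- Let `n - k = 2κ`, `κ ≥ 1`, and let `lam` be a Schubert problem on `G(k,n)` all of whose
partitions have all their parts in `{0, 2κ}`, except that for `l` in a set `T` of at most four
indices the partition `lam l` may also have parts `κ`. Then there is a number `d` such that the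
intersection for general flags has `d` points, and for all flags cosecant to the rational normal
curve along pairwise disjoint intervals the intersection of the Schubert varieties consists of
exactly `d` points, every point is real, and the intersection is transverse there. If `T` has four
elements then `d` is the binomial coefficient `D` choose `κ`, where `D` is the least of the numbers
`r l` and `N - r l`, `l ∈ T`, with `r l = κ + (number of parts κ of lam l)` and
`N = n - (total number of parts 2κ)`; if `T` has at most three elements then `d ≤ 1`. -/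
theorem result (k n m κ : ℕ) (hk : 1 ≤ k) (hκ : 1 ≤ κ) (hn : n = k + 2 * κ)
    (lam : Fin m → Fin k → ℕ) (hlam : IsProblem k n m lam)
    (T : Finset (Fin m)) (hT : T.card ≤ 4)
    (hfree : ∀ l ∈ T, ∀ i, lam l i = 0 ∨ lam l i = κ ∨ lam l i = 2 * κ)
    (hrect : ∀ l, l ∉ T → ∀ i, lam l i = 0 ∨ lam l i = 2 * κ) :
    ∃ d, (∀ d', IsGenericNumber k n m lam d' ↔ d' = d) ∧
      (T.card ≤ 3 → d ≤ 1) ∧
      (T.card = 4 → ∀ D, IsLeast {x | ∃ l ∈ T,
          x = κ + (Finset.univ.filter fun i => lam l i = κ).card ∨
          x = n - ∑ l', (Finset.univ.filter fun i => lam l' i = 2 * κ).card -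
            (κ + (Finset.univ.filter fun i => lam l i = κ).card)} D → d = D.choose κ) ∧
      ∀ (I : Fin m → Set ℝ) (F : Fin m → ℕ → Submodule ℂ (Fin n → ℂ)),
        (∀ l, (I l).OrdConnected) → Pairwise (fun l l' => Disjoint (I l) (I l')) →
        (∀ l, Cosecant n (I l) (F l)) →
        (⋂ l, schub k n (lam l) (F l)).encard = d ∧
          ∀ H ∈ ⋂ l, schub k n (lam l) (F l), IsReal n H ∧
            ∀ φ : ↥H →ₗ[ℂ] (Fin n → ℂ) ⧸ H,
              (∀ l, TangentTo k n (lam l) (F l) H φ) → φ = 0 := by
  obtain ⟨d, hd, h3, h4⟩ := CSCB.main_four hk hκ hn hlam T hT hfree hrect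
  refine ⟨d, fun d' => ⟨fun h => generic_unique h hd.1, ?_⟩, h3, h4, hd.2⟩
  rintro rfl
  exact hd.1

end Pool.Agent.Results.MP_0b2914_ag.FourFreePartitions
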