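import Pool.Agent.Helper53.CSC.Fin

/-!
The cosecant conjecture for Schubert problems on `G(k,n)` in which all parts of all but at most two
of the partitions are `0` or `n - k`.
-/

namespace Pool.Agent.Results.MP_0b2914_ag.TwoFreePartitions

open Module Pool.CSC

/-- Let `lam` be a Schubert problem on `G(k,n)` such that, with at most two exceptions `l₁`, `l₂`,
every partition has all its parts in `{0, n - k}`. Then the number `d` of points of the intersection
for general flags is at most one, and for all flags cosecant to the rational normal curve along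
pairwise disjoint intervals the intersection of the Schubert varieties consists of exactly `d`
points, every point is real, and the intersection is transverse there. -/
theorem result (k n m : ℕ) (hk : 1 ≤ k) (hkn : k < n) (lam : Fin m → Fin k → ℕ)
    (hlam : IsProblem k n m lam) (l₁ l₂ : Fin m)
    (hrect : ∀ l, l ≠ l₁ → l ≠ l₂ → ∀ i, lam l i = 0 ∨ lam l i = n - k) :
    ∃ d ≤ 1, (∀ d', IsGenericNumber k n m lam d' ↔ d' = d) ∧
      ∀ (I : Fin m → Set ℝ) (F : Fin m → ℕ → Submodule ℂ (Fin n → ℂ)),
        (∀ l, (I l).OrdConnected) → Pairwise (fun l l' => Disjoint (I l) (I l')) →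
        (∀ l, Cosecant n (I l) (F l)) →
        (⋂ l, schub k n (lam l) (F l)).encard = d ∧
          ∀ H ∈ ⋂ l, schub k n (lam l) (F l), IsReal n H ∧
            ∀ φ : ↥H →ₗ[ℂ] (Fin n → ℂ) ⧸ H,
              (∀ l, TangentTo k n (lam l) (F l) H φ) → φ = 0 := by
  by_cases hne : l₁ = l₂
  · subst hne
    by_cases hex : ∃ l, l ≠ l₁
    · obtain ⟨l₂, h2⟩ := hex
      exact main_two k n m hk hkn lam hlam l₁ l₂ (fun l h _ => hrect l h h) (Ne.symm h2)
    · push Not at hex
      have hsum := hlam.sum
      have hu : (Finset.univ : Finset (Fin m)) = {l₁} := by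
        ext l
        simp [hex l]
      rw [hu, Finset.sum_singleton] at hsum
      have hconst : ∑ _i : Fin k, (n - k) = k * (n - k) := by simp
      rw [← hconst] at hsum
      have hmu : ∀ i, lam l₁ i = n - k := fun i =>
        (Finset.sum_eq_sum_iff_of_le (fun i _ => hlam.le l₁ i)).1 hsum i (Finset.mem_univ i)
      have hinter : ∀ F : Fin m → ℕ → Submodule ℂ (Fin n → ℂ),
          (⋂ l, schub k n (lam l) (F l)) = schub k n (lam l₁) (F l₁) := by
        intro F
        ext H
        rw [Set.mem_iInter]
        constructor
        · exact fun h => h l₁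
        · intro h l
          rw [hex l]
          exact h
      have hgen : IsGenericNumber k n m lam 1 := by
        refine ⟨1, one_ne_zero, fun A hA _ => ?_⟩
        rw [hinter (fun l => flagOf n (A l)),
          (single_case hk hkn hmu (isFlag_flagOf _ (hA l₁))).1, Set.encard_singleton]
        rfl
      refine ⟨1, le_rfl, fun d' => ⟨fun h => generic_unique h hgen, ?_⟩, ?_⟩
      · rintro rfl
        exact hgen
      · intro I F hI hd hF
        have hfl := isFlag_cosecant (by omega) (hF l₁)
        obtain ⟨h1, h2⟩ := single_case hk hkn hmu hfl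
        rw [hinter F, h1]
        refine ⟨by rw [Set.encard_singleton]; rfl, ?_⟩
        intro H hH
        rw [Set.mem_singleton_iff] at hH
        subst hH
        exact ⟨isReal_cosecant (by omega) (hF l₁) hkn.le, fun φ hφ => h2 φ (hφ l₁)⟩
  · exact main_two k n m hk hkn lam hlam l₁ l₂ hrect hne

end Pool.Agent.Results.MP_0b2914_ag.TwoFreePartitions
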